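import Pool.Agent.Y167.Bpf
import Pool.Agent.TH735.AQ.Crit
import Pool.Agent.TH128.SYZ.PsefConv

/-!
# Nef line bundles on torus quotients and base point free powers
-/

set_option autoImplicit false

namespace Pool.Agent.X302.SA

open Pool.Agent.W594.SYZ2 Pool.Agent.W594.SYZ2.TQ Pool.Agent.TH735.AQ Pool.Agent.TH128.SYZ

variable {V : Type*} [NormedAddCommGroup V] [NormedSpace ℂ V] {Γ : Subgroup (V ≃ᵃ[ℂ] V)}

/-- The line bundle `L` on `X = V / Γ` is globally generated: for every point there is a section which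
does not vanish at this point. -/
def IsGloballyGenerated (L : LineBundle Γ) : Prop := ∀ v, ∃ s, L.IsSection s ∧ s v ≠ 0

/-- The dual line bundle. -/
noncomputable def dual (L : LineBundle Γ) : LineBundle Γ where
  e := fun γ v => (L.e γ v)⁻¹
  holo := fun γ => (L.holo γ).inv (L.ne_zero γ)
  ne_zero := fun γ v => inv_ne_zero (L.ne_zero γ v)
  mul := fun γ δ v => by rw [L.mul, mul_inv]
  stab := fun γ v h => by rw [L.stab γ v h, inv_one]

theorem chern_dual {L : LineBundle Γ} {H : V → V → ℂ} (hc : IsChernForm L H) :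
    IsChernForm (dual L) (fun v w => -H v w) := by
  obtain ⟨hH, F, hF, hFe⟩ := hc
  refine ⟨⟨fun u v w => ?_, fun a v w => ?_, fun v w => ?_⟩, fun v => -F v, hF.neg, fun γ v => ?_⟩
  · rw [hH.add_left]; ring
  · rw [hH.smul_left]; ring
  · rw [map_neg, ← hH.symm]
  · change ‖(L.e γ v)⁻¹‖ ^ 2 = _
    rw [norm_inv, inv_pow, hFe, ← Real.exp_neg]
    simp only [Complex.neg_re]
    congr 1
    ring

theorem chern_tensor' {L M : LineBundle Γ} {H K : V → V → ℂ} (hc : IsChernForm L H)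
    (hd : IsChernForm M K) : IsChernForm (tensor L M) (fun v w => H v w + K v w) := by
  obtain ⟨hH, F, hF, hFe⟩ := hc
  obtain ⟨hK, G, hG, hGe⟩ := hd
  refine ⟨⟨fun u v w => ?_, fun a v w => ?_, fun v w => ?_⟩, fun v => F v + G v, hF.add hG,
    fun γ v => ?_⟩
  · rw [hH.add_left, hK.add_left]; ring
  · rw [hH.smul_left, hK.smul_left]; ring
  · rw [map_add, ← hH.symm, ← hK.symm]
  · change ‖L.e γ v * M.e γ v‖ ^ 2 = _
    rw [norm_mul, mul_pow, hFe, hGe, ← Real.exp_add]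
    simp only [Complex.add_re]
    congr 1
    ring

theorem chern_pow {L : LineBundle Γ} {H : V → V → ℂ} (hc : IsChernForm L H) (k : ℕ) :
    IsChernForm (L.pow k) (fun v w => (k : ℂ) * H v w) := by
  obtain ⟨hH, F, hF, hFe⟩ := hc
  have hMr : ∀ z : ℂ, ((k : ℂ) * z).re = (k : ℝ) * z.re := fun z => by
    have : ((k : ℕ) : ℂ) = ((k : ℝ) : ℂ) := by push_cast; rfl
    rw [this, Complex.re_ofReal_mul]
  refine ⟨⟨fun u v w => ?_, fun a v w => ?_, fun v w => ?_⟩, fun v => (k : ℂ) * F v,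
    hF.const_mul _, fun γ v => ?_⟩
  · rw [hH.add_left, mul_add]
  · rw [hH.smul_left]
    ring
  · rw [map_mul, ← hH.symm, Complex.conj_natCast]
  · have h1 : ‖(L.pow k).e γ v‖ ^ 2 = (‖L.e γ v‖ ^ 2) ^ k := by
      change ‖L.e γ v ^ k‖ ^ 2 = _
      rw [norm_pow, ← pow_mul, ← pow_mul, mul_comm]
    rw [h1, hFe, ← Real.exp_nat_mul]
    simp only [hMr]
    congr 1
    ring

variable [FiniteDimensional ℂ V]

/-- A line bundle whose Chern form is zero is torsion if `H^1(X, O_X) = 0`. -/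
theorem torsion_of_zero (hΓ : IsTorusQuotient Γ) (h01 : HOneZero Γ) {P : LineBundle Γ}
    {H : V → V → ℂ} (hc : IsChernForm P H) (h0 : ∀ v w, H v w = 0) :
    ∃ m : ℕ, 1 ≤ m ∧ (P.pow m).IsTrivial := by
  obtain ⟨n, Δ, π, hker, hfib, m, hm, A, HA, -, -, h, hh, hne, heq⟩ :=
    Pool.Agent.TH735.AQ.semiample hΓ h01 hc (fun v => by rw [h0]; simp)
  have hπ : ∀ v, π v = 0 := fun v => (hker v).2 fun w => h0 v w
  refine ⟨m, hm, fun v => (h v)⁻¹, ⟨hh.inv hne, fun γ v => ?_⟩, fun v => inv_ne_zero (hne v)⟩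
  have h1 := heq γ 1 (fun v => by
    change π v = π _
    rw [hπ, hπ]) v
  rw [A.stab 1 (π v) rfl, one_mul] at h1
  rw [← h1, mul_inv, mul_left_comm, mul_inv_cancel₀ ((P.pow m).ne_zero _ _), mul_one]

/-- For a nef line bundle a multiple of the class is the class of a globally generated one. -/
theorem exists_gg (hΓ : IsTorusQuotient Γ) {L : LineBundle Γ} {H : V → V → ℂ}
    (hc : IsChernForm L H) (hn : IsNefForm H) :
    ∃ m : ℕ, 1 ≤ m ∧ ∃ M : LineBundle Γ, IsChernForm M (fun v w => (m : ℂ) * H v w) ∧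
      IsGloballyGenerated M := by
  obtain ⟨hH, F, hF, hFe⟩ := hc
  have hpot : IsPot L H F := ⟨hF, hFe⟩
  obtain ⟨m, hm, M, hM, hs⟩ := Pool.Agent.Y167.exists_bpf hΓ hH hn
    (fun γ hγ v w => h_inv hH hpot ⟨γ, hγ⟩ v w) one_pos (fun b hb c hc => by
      obtain ⟨n, hn⟩ := im_int hH hpot hb hc
      exact ⟨n, by rw [Nat.cast_one, one_mul, hn]⟩)
  exact ⟨m, hm, M, hM, hs⟩

/-- If `H^1(X, O_X) = 0` then every nef line bundle has a globally generated power. -/
theorem gg_of_nef (hΓ : IsTorusQuotient Γ) (h01 : HOneZero Γ) {L : LineBundle Γ}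
    {H : V → V → ℂ} (hc : IsChernForm L H) (hn : IsNefForm H) :
    ∃ N : ℕ, 1 ≤ N ∧ IsGloballyGenerated (L.pow N) := by
  obtain ⟨m, hm, M, hM, hs⟩ := exists_gg hΓ hc hn
  obtain ⟨k, hk, u, hu, hune⟩ := torsion_of_zero hΓ h01
    (chern_tensor' (chern_pow hc m) (chern_dual hM)) (fun v w => by ring)
  refine ⟨m * k, Nat.mul_pos hm hk, fun v => ?_⟩
  obtain ⟨s, hsec, hsv⟩ := hs v
  refine ⟨fun v => s v ^ k * u v, ⟨(hsec.holo.pow k).mul hu.holo, fun γ v => ?_⟩,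
    mul_ne_zero (pow_ne_zero _ hsv) (hune v)⟩
  have h1 := hsec.eq γ v
  have h2 := hu.eq γ v
  change u ((γ : V ≃ᵃ[ℂ] V) v) = (L.e γ v ^ m * (M.e γ v)⁻¹) ^ k * u v at h2
  change s ((γ : V ≃ᵃ[ℂ] V) v) ^ k * u ((γ : V ≃ᵃ[ℂ] V) v) = L.e γ v ^ (m * k) * (s v ^ k * u v)
  rw [h1, h2, pow_mul]
  have h3 : M.e γ v ^ k ≠ 0 := pow_ne_zero _ (M.ne_zero γ v)
  rw [mul_pow, mul_pow, inv_pow]
  field_simp

omit [NormedAddCommGroup V] [NormedSpace ℂ V] [FiniteDimensional ℂ V] in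
theorem nef_of_mul {H : V → V → ℂ} {N : ℕ} (hN : 1 ≤ N)
    (h : IsNefForm (fun v w => (N : ℂ) * H v w)) : IsNefForm H := by
  intro v
  have h1 := h v
  change 0 ≤ ((N : ℂ) * H v v).re at h1
  have : ((N : ℕ) : ℂ) = ((N : ℝ) : ℂ) := by push_cast; rfl
  rw [this, Complex.re_ofReal_mul] at h1
  have hpos : (0 : ℝ) < N := by exact_mod_cast hN
  exact nonneg_of_mul_nonneg_right h1 hpos

/-- A line bundle with a nonzero section in some positive power is nef. -/
theorem nef_of_section (hΓ : IsTorusQuotient Γ) {L : LineBundle Γ} {H : V → V → ℂ}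
    (hc : IsChernForm L H) {N : ℕ} (hN : 1 ≤ N) {s : V → ℂ} (hs : (L.pow N).IsSection s)
    (h0 : s ≠ 0) : IsNefForm H :=
  nef_of_mul hN (nef_of_psef hΓ (chern_pow hc N) (psef_of_section hs h0))

theorem nef_of_gg (hΓ : IsTorusQuotient Γ) {L : LineBundle Γ} {H : V → V → ℂ}
    (hc : IsChernForm L H) {N : ℕ} (hN : 1 ≤ N) (h : IsGloballyGenerated (L.pow N)) :
    IsNefForm H := by
  obtain ⟨s, hs, h0⟩ := h 0
  exact nef_of_section hΓ hc hN hs fun h => h0 (by rw [h]; rfl)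

/-- If `H^1(X, O_X) ≠ 0` there is a line bundle with Chern form zero none of whose powers is
globally generated. -/
theorem exists_not_gg (hΓ : IsTorusQuotient Γ) (h01 : ¬ HOneZero Γ) :
    ∃ P : LineBundle Γ, IsFlat P ∧ ∀ N : ℕ, 1 ≤ N → ¬ IsGloballyGenerated (P.pow N) := by
  obtain ⟨P, hP, hne⟩ := exists_flat hΓ h01
  refine ⟨P, hP, fun N hN hgg => ?_⟩
  have hc := chern_of_flat hP
  obtain ⟨s, hs, h0⟩ := hgg 0
  -- the norm of `s` is invariant, hence `s` is bounded and constant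
  have hnorm : ∀ (γ : Γ) (v : V), ‖s ((γ : V ≃ᵃ[ℂ] V) v)‖ = ‖s v‖ := by
    intro γ v
    have h1 : s ((γ : V ≃ᵃ[ℂ] V) v) = P.e γ v ^ N * s v := hs.eq γ v
    rw [h1, norm_mul, norm_pow, hP.2, one_pow, one_mul]
  have : ProperSpace V := FiniteDimensional.proper ℂ V
  obtain ⟨C, hC⟩ := cobounded (latt Γ) hΓ.span_top
  have hb : Bornology.IsBounded (Set.range s) := by
    have hK : IsCompact (Metric.closedBall (0 : V) C) := isCompact_closedBall _ _
    obtain ⟨B, hB⟩ := ((hK.image hs.holo.continuous).isBounded).exists_norm_le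
    rw [isBounded_iff_forall_norm_le]
    refine ⟨B, ?_⟩
    rintro _ ⟨v, rfl⟩
    obtain ⟨b, hb, hbC⟩ := hC v
    rw [← hnorm (tr b hb) v, tr_apply]
    exact hB _ ⟨b + v, by rwa [mem_closedBall_zero_iff], rfl⟩
  have hsne : ∀ v, s v ≠ 0 := fun v => by
    rw [hs.holo.apply_eq_apply_of_bounded hb v 0]
    exact h0
  have ht : TorsionOnKernel P (fun _ _ => 0) :=
    ⟨N, hN, s, hs.holo, hsne, fun b hb _ v _ => hs.eq ⟨_, hb⟩ v⟩
  obtain ⟨n, Δ, π, h1, h2⟩ := semiample_of_torsion hΓ hc (fun v => by simp) ht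
  exact hne n Δ π h1 h2

end Pool.Agent.X302.SA
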